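import Pool.Agent.helper28.OC.Base

/-!
# CV project, module A3b: algebra of `conv` and `actL`
-/

open scoped BigOperators

namespace Pool.Agent.helper28.OC

open L1G

section A3b

variable {G : Type*} [Group G]

/-- the shear `(y, z) ↦ (y z, y)` -/
def A3b_e (G : Type*) [Group G] : G × G ≃ G × G :=
  (Equiv.prodShear (Equiv.refl G) (fun y : G => Equiv.mulLeft y)).trans (Equiv.prodComm G G)

theorem A3b_e_apply (p : G × G) : A3b_e G p = (p.1 * p.2, p.1) := rfl

theorem A3b_summable (u v : L1 G) (f : L2 G) :
    Summable (fun p : G × G => (u p.1 * v p.2) • tr (p.1 * p.2) f) := by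
  apply Summable.of_norm
  simp only [norm_smul, norm_mul, LinearIsometry.norm_map]
  exact (Summable.mul_of_nonneg (summable_norm u) (summable_norm v) (fun _ => norm_nonneg _)
    (fun _ => norm_nonneg _)).mul_right _

theorem A3b_summable' (u v : L1 G) (f : L2 G) :
    Summable (fun p : G × G => (u p.2 * v (p.2⁻¹ * p.1)) • tr p.1 f) := by
  rw [← Equiv.summable_iff (A3b_e G)]
  convert A3b_summable u v f using 1
  funext p
  simp [A3b_e_apply]

/-- module A3b (independent): algebra of `conv` and `actL` -/
theorem A3b_actL_conv {G : Type*} [Group G] (u v : L1 G) :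
    actL (conv u v) = actL u ∘L actL v := by
  ext1 f
  have h1 : act (conv u v) f = ∑' p : G × G, (u p.2 * v (p.2⁻¹ * p.1)) • tr p.1 f := by
    rw [(A3b_summable' u v f).tsum_prod]
    unfold act
    congr 1
    funext x
    rw [conv_apply, ← (summable_conv u v x).tsum_smul_const]
  have h2 : act u (act v f) = ∑' p : G × G, (u p.1 * v p.2) • tr (p.1 * p.2) f := by
    rw [(A3b_summable u v f).tsum_prod]
    rw [act]
    congr 1
    funext y
    have h3 := (tr y).toContinuousLinearMap.map_tsum (summable_act v f)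
    have h4 : tr y (act v f) = ∑' z, tr y (v z • tr z f) := h3
    rw [h4, ← tsum_const_smul'']
    congr 1
    funext z
    rw [map_smul, smul_smul, tr_mul]
  change act (conv u v) f = act u (act v f)
  rw [h1, h2, ← Equiv.tsum_eq (A3b_e G)]
  congr 1
  funext p
  simp [A3b_e_apply]

theorem A3b_actL_rt {G : Type*} [Group G] (u : L1 G) (g : G) (f : L2 G) :
    actL u (rt g f) = rt g (actL u f) := by
  change act u (rt g f) = rt g (act u f)
  have h3 := (rt g).toContinuousLinearMap.map_tsum (summable_act u f)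
  have h4 : rt g (act u f) = ∑' z, rt g (u z • tr z f) := h3
  rw [h4]
  unfold act
  congr 1
  funext z
  rw [map_smul]
  congr 1
  ext x
  simp [mul_assoc]

theorem A3b_actL_sub {G : Type*} [Group G] (u v : L1 G) : actL (u - v) = actL u - actL v := by
  ext1 f
  exact act_sub u v f

theorem A3b_actL_smul {G : Type*} [Group G] (c : ℂ) (u : L1 G) : actL (c • u) = c • actL u := by
  ext1 f
  change act (c • u) f = c • act u f
  unfold act
  rw [← tsum_const_smul'']
  congr 1
  funext g
  rw [lp.coeFn_smul, Pi.smul_apply, smul_smul, smul_eq_mul]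

theorem A3b_norm_conv_le {G : Type*} [Group G] (u v : L1 G) : ‖conv u v‖ ≤ ‖u‖ * ‖v‖ := by
  have hs := summable_conv_prod (summable_norm u) (summable_norm v)
  have h1 : ‖conv u v‖ ≤ ∑' x, ∑' y, ‖u y * v (y⁻¹ * x)‖ := by
    rw [norm_eq]
    refine Summable.tsum_le_tsum (fun x => ?_) (summable_norm (conv u v)) hs.prod
    rw [conv_apply]
    exact norm_tsum_le_tsum_norm (hs.prod_factor x)
  refine h1.trans (le_of_eq ?_)
  have h2 := hs.tsum_prod
  rw [← h2, ← Equiv.tsum_eq (A3b_e G)]
  have h3 : ∀ p : G × G, ‖u (A3b_e G p).2 * v ((A3b_e G p).2⁻¹ * (A3b_e G p).1)‖ =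
      ‖u p.1‖ * ‖v p.2‖ := by
    intro p
    simp [A3b_e_apply]
  simp only [h3]
  rw [norm_eq, norm_eq, tsum_mul_tsum_of_summable_norm]
  · simpa using summable_norm u
  · simpa using summable_norm v

theorem A3b_conv_sub_left {G : Type*} [Group G] (u v w : L1 G) :
    conv (u - v) w = conv u w - conv v w := by
  ext x
  rw [lp.coeFn_sub, Pi.sub_apply, conv_apply, conv_apply, conv_apply,
    ← (summable_conv u w x).tsum_sub (summable_conv v w x)]
  congr 1
  funext y
  rw [lp.coeFn_sub, Pi.sub_apply, sub_mul]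

end A3b

end Pool.Agent.helper28.OC
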