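import Pool.Agent.helper43.OC.A3a
import Pool.Agent.helper43.OC.A3b
import Pool.Agent.helper8.OC.A3c

/-!
# CV project, module A3d: a finite subgroup that is not normal prevents openness
-/

open scoped BigOperators

namespace Pool.Agent.helper28.OC

open L1G

theorem A3d_toL1_sub {G : Type*} (a b : MonoidAlgebra ℂ G) : toL1 (a - b) = toL1 a - toL1 b := by
  ext x
  simp [toL1_apply]

theorem A3d_toL1_zero {G : Type*} : toL1 (0 : MonoidAlgebra ℂ G) = 0 := by
  ext x
  simp [toL1_apply]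

theorem A3d_toL1_eq_zero {G : Type*} {a : MonoidAlgebra ℂ G} (h : toL1 a = 0) : a = 0 := by
  ext x
  have : (toL1 a) x = 0 := by rw [h]; simp
  simpa [toL1_apply] using this

/-- module A3d (assembly of A3a, A3c): a finite subgroup that is not normal prevents openness. -/
theorem A3d_not_open {G : Type*} [Group G] (K : Subgroup G) [Finite K] (hK : ¬ K.Normal) :
    ¬ OpenConv G := by
  intro hopen
  obtain ⟨e, v, hee, hve, hev, hv0, hker⟩ := A3c_exists_ev K hK
  set S : Set (L1 G × L1 G) := Metric.ball (toL1 (1 - e)) 1 ×ˢ Metric.ball (toL1 e) 1 with hS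
  have hSo : IsOpen S := Metric.isOpen_ball.prod Metric.isOpen_ball
  have him := hopen S hSo
  have h0 : (0 : L1 G) ∈ (fun q : L1 G × L1 G => conv q.1 q.2) '' S := by
    refine ⟨(toL1 (1 - e), toL1 e), ⟨Metric.mem_ball_self one_pos, Metric.mem_ball_self one_pos⟩, ?_⟩
    change conv (toL1 (1 - e)) (toL1 e) = 0
    rw [conv_toL1, sub_mul, one_mul, hee, sub_self, A3d_toL1_zero]
  obtain ⟨r, hr, hball⟩ := Metric.isOpen_iff.1 him 0 h0
  set c : ℝ := r / (2 * (‖toL1 v‖ + 1)) with hc
  have hc0 : 0 < c := by positivity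
  have hcv : (c : ℂ) • toL1 v ∈ Metric.ball (0 : L1 G) r := by
    rw [Metric.mem_ball, dist_zero_right, norm_smul, Complex.norm_real, Real.norm_of_nonneg hc0.le,
      hc, div_mul_eq_mul_div, div_lt_iff₀ (by positivity)]
    nlinarith [norm_nonneg (toL1 v)]
  obtain ⟨⟨A, B⟩, ⟨hA, hB⟩, hAB⟩ := hball hcv
  rw [Metric.mem_ball, dist_eq_norm] at hA hB
  change conv A B = (c : ℂ) • toL1 v at hAB
  have hcC : (c : ℂ) ≠ 0 := by exact_mod_cast hc0.ne'
  have hAB' : actL A ∘L actL B = (c : ℂ) • Lam v := by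
    rw [← A3b_actL_conv, hAB, A3b_actL_smul, actL_toL1]
  -- the adjoint of `actL A` is injective
  have hadj : ∀ ξ : L2 G, ContinuousLinearMap.adjoint (actL A) ξ = 0 → ξ = 0 := by
    intro ξ hξ
    have h1 : ContinuousLinearMap.adjoint ((c : ℂ) • Lam v) ξ = 0 := by
      rw [← hAB', ContinuousLinearMap.adjoint_comp, ContinuousLinearMap.comp_apply, hξ, map_zero]
    have h2 : ContinuousLinearMap.adjoint (Lam v) ξ = 0 := by
      rw [map_smulₛₗ, smul_apply] at h1
      have hcs : (starRingEnd ℂ) (c : ℂ) ≠ 0 := by simpa using hcC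
      exact (smul_eq_zero.1 h1).resolve_left hcs
    have h3 := hker ξ h2
    have h4 : ξ = ContinuousLinearMap.adjoint (Lam (1 - e)) ξ := by
      rw [map_sub, map_one, map_sub, sub_apply, h3, sub_zero]
      have : ContinuousLinearMap.adjoint (1 : L2 G →L[ℂ] L2 G) = 1 := by
        rw [← ContinuousLinearMap.star_eq_adjoint, star_one]
      rw [this, one_apply_eq_self]
    have h5 : ξ = ContinuousLinearMap.adjoint (actL (toL1 (1 - e) - A)) ξ := by
      rw [A3b_actL_sub, actL_toL1, map_sub, sub_apply, hξ, sub_zero]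
      exact h4
    have h6 : ‖ξ‖ ≤ ‖toL1 (1 - e) - A‖ * ‖ξ‖ := by
      conv_lhs => rw [h5]
      refine (ContinuousLinearMap.le_opNorm _ _).trans ?_
      rw [LinearIsometryEquiv.norm_map]
      gcongr
      exact norm_actL_le _
    rw [norm_sub_rev] at hA
    have : ‖ξ‖ = 0 := by
      have := norm_nonneg ξ
      nlinarith
    exact norm_eq_zero.1 this
  have hinj : ∀ ξ : L2 G, actL A ξ = 0 → ξ = 0 := fun ξ hξ =>
    A3a_finite (actL A) (fun g f => A3b_actL_rt A g f) hadj ξ hξ
  have h7 : actL A (actL B (toL2 (toL1 e))) = 0 := by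
    have : actL A (actL B (toL2 (toL1 e))) = (actL A ∘L actL B) (toL2 (toL1 e)) := rfl
    have h70 : toL2 (0 : L1 G) = 0 := by ext x; simp
    rw [this, hAB', smul_apply, ← actL_toL1, actL_apply, act_toL2, conv_toL1, hve, A3d_toL1_zero,
      h70, smul_zero]
  have h8 := hinj _ h7
  have h9 : conv B (toL1 e) = 0 := by
    rw [actL_apply, act_toL2] at h8
    ext x
    have : toL2 (conv B (toL1 e)) x = 0 := by rw [h8]; simp
    simpa using this
  have h10 : toL1 e = conv (toL1 e - B) (toL1 e) := by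
    rw [A3b_conv_sub_left, h9, sub_zero, conv_toL1, hee]
  have h11 : ‖toL1 e‖ ≤ ‖toL1 e - B‖ * ‖toL1 e‖ := by
    conv_lhs => rw [h10]
    exact A3b_norm_conv_le _ _
  rw [norm_sub_rev] at hB
  have h12 : ‖toL1 e‖ = 0 := by
    have := norm_nonneg (toL1 e)
    nlinarith
  have h13 : e = 0 := A3d_toL1_eq_zero (norm_eq_zero.1 h12)
  apply hv0
  rw [← hev, h13, zero_mul]

end Pool.Agent.helper28.OC
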