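import Pool.Agent.helper28.OC.Base

/-!
# OC project, module A3a: finiteness of the group von Neumann algebra
-/

open scoped BigOperators

namespace Pool.Agent.helper28.OC

open L1G

section A3a

variable {G : Type*} [Group G]

/-- The Dirac mass at `1`. -/
noncomputable def A3a_d (G : Type*) [Group G] : L2 G := by
  classical exact lp.single 2 (1 : G) (1 : ℂ)

theorem A3a_inner_d (f : L2 G) : inner ℂ (A3a_d G) f = f 1 := by
  classical
  unfold A3a_d
  rw [lp.inner_single_left]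
  simp

theorem A3a_inner_rt_d (g : G) (f : L2 G) : inner ℂ (rt g (A3a_d G)) f = f g⁻¹ := by
  have h1 : f = rt g (rt g⁻¹ f) := by ext x; simp [mul_assoc]
  conv_lhs => rw [h1]
  rw [(rt g).inner_map_map, A3a_inner_d]
  simp

theorem A3a_hasSum (f : L2 G) : HasSum (fun g : G => f g • rt g⁻¹ (A3a_d G)) f := by
  classical
  have h := lp.hasSum_single (p := 2) (by simp) f
  convert h using 1
  funext g
  ext x
  simp only [lp.coeFn_smul, Pi.smul_apply, rt_apply, smul_eq_mul, A3a_d]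
  rw [lp.single_apply, lp.single_apply]
  by_cases hx : x = g
  · subst hx; simp
  · have : x * g⁻¹ ≠ 1 := by rwa [Ne, mul_inv_eq_one]
    simp [hx, this]

/-- trace formula -/
theorem A3a_trace (X Y : L2 G →L[ℂ] L2 G) (hX : ∀ g f, X (rt g f) = rt g (X f)) :
    HasSum (fun g : G => (Y (A3a_d G)) g * (X (A3a_d G)) g⁻¹) ((X (Y (A3a_d G))) 1) := by
  have h1 := (A3a_hasSum (Y (A3a_d G))).mapL X
  have h2 := h1.mapL (lp.evalCLM ℂ (fun _ : G => ℂ) 2 1)
  have e : (fun g : G => (Y (A3a_d G)) g * (X (A3a_d G)) g⁻¹) = fun g : G =>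
      (lp.evalCLM ℂ (fun _ : G => ℂ) 2 1) (X ((Y (A3a_d G)) g • rt g⁻¹ (A3a_d G))) := by
    funext g
    rw [map_smul, hX, map_smul]
    change _ = (Y (A3a_d G)) g * (rt g⁻¹ (X (A3a_d G))) 1
    rw [rt_apply, one_mul]
  rw [e]
  exact h2

theorem A3a_trace_comm (X Y : L2 G →L[ℂ] L2 G) (hX : ∀ g f, X (rt g f) = rt g (X f))
    (hY : ∀ g f, Y (rt g f) = rt g (Y f)) :
    (X (Y (A3a_d G))) 1 = (Y (X (A3a_d G))) 1 := by
  rw [← (A3a_trace X Y hX).tsum_eq, ← (A3a_trace Y X hY).tsum_eq,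
    ← Equiv.tsum_eq (Equiv.inv G)]
  congr 1
  funext g
  simp [mul_comm]

theorem A3a_inner_rt (g : G) (f h : L2 G) : inner ℂ (rt g f) h = inner ℂ f (rt g⁻¹ h) := by
  have h1 : h = rt g (rt g⁻¹ h) := by ext x; simp [mul_assoc]
  conv_lhs => rw [h1]
  exact (rt g).inner_map_map _ _

theorem A3a_adj_rt (A : L2 G →L[ℂ] L2 G) (hA : ∀ g f, A (rt g f) = rt g (A f)) (g : G)
    (f : L2 G) : ContinuousLinearMap.adjoint A (rt g f) = rt g (ContinuousLinearMap.adjoint A f) := by
  apply ext_inner_left ℂ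
  intro v
  rw [ContinuousLinearMap.adjoint_inner_right]
  have e : inner ℂ (A v) (rt g f) = inner ℂ (rt g⁻¹ (A v)) f := by
    rw [A3a_inner_rt, inv_inv]
  have e2 : inner ℂ v (rt g (ContinuousLinearMap.adjoint A f)) =
      inner ℂ (rt g⁻¹ v) (ContinuousLinearMap.adjoint A f) := by
    rw [A3a_inner_rt, inv_inv]
  rw [e, e2, ContinuousLinearMap.adjoint_inner_right, hA]

end A3a

open ContinuousLinearMap in
/-- module A3a (independent): finiteness of the group von Neumann algebra: for an operator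
commuting with right translations, `ker A† = 0` implies `ker A = 0`. -/
theorem A3a_finite {G : Type*} [Group G] (A : L2 G →L[ℂ] L2 G)
    (hA : ∀ g f, A (rt g f) = rt g (A f))
    (h : ∀ ξ : L2 G, ContinuousLinearMap.adjoint A ξ = 0 → ξ = 0) (ξ : L2 G) (hξ : A ξ = 0) :
    ξ = 0 := by
  -- density of the range
  have hdense : ∀ e : ℝ, 0 < e → ∃ z : L2 G, ‖A3a_d G - A z‖ < e := by
    intro e he
    have h1 : (LinearMap.range (A : L2 G →ₗ[ℂ] L2 G)).topologicalClosure = ⊤ := by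
      rw [Submodule.topologicalClosure_eq_top_iff, Submodule.eq_bot_iff]
      intro y hy
      apply h
      apply ext_inner_left ℂ
      intro v
      rw [ContinuousLinearMap.adjoint_inner_right, inner_zero_right]
      exact (Submodule.mem_orthogonal _ _).1 hy _ ⟨v, rfl⟩
    have h2 : A3a_d G ∈ closure (LinearMap.range (A : L2 G →ₗ[ℂ] L2 G) : Set (L2 G)) := by
      rw [← Submodule.topologicalClosure_coe, h1]; trivial
    obtain ⟨b, hb, hb2⟩ := Metric.mem_closure_iff.1 h2 e he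
    obtain ⟨z, hz⟩ := hb
    refine ⟨z, ?_⟩
    rw [← dist_eq_norm]
    have hz' : A z = b := hz
    rw [hz']; exact hb2
  -- main estimate
  have key : ∀ (η : ℝ), 0 < η → ∀ z : L2 G, ∀ g : G,
      ‖ξ g‖ ^ 2 ≤ (‖A3a_d G - A z‖ ^ 2 + η * ‖z‖ ^ 2) * ‖ξ‖ ^ 2 := by
    intro η hη z g
    set d := A3a_d G with hd
    set B : L2 G →L[ℂ] L2 G := adjoint A ∘L A + (η : ℂ) • ContinuousLinearMap.id ℂ (L2 G) with hB
    have hBx : ∀ x, B x = adjoint A (A x) + (η : ℂ) • x := fun x => rfl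
    have hre : ∀ x y : L2 G, RCLike.re (inner ℂ x y) = (inner ℂ y x).re := fun x y =>
      inner_re_symm x y
    have hself : ∀ x : L2 G, inner ℂ x x = ((‖x‖ ^ 2 : ℝ) : ℂ) := fun x => by
      rw [inner_self_eq_norm_sq_to_K]; simp
    have hBB : ∀ x, inner ℂ (B x) x = ((‖A x‖ ^ 2 + η * ‖x‖ ^ 2 : ℝ) : ℂ) := by
      intro x
      rw [hBx, inner_add_left, adjoint_inner_left, inner_smul_left, inner_self_eq_norm_sq_to_K,
        inner_self_eq_norm_sq_to_K]
      simp
    have hunit : IsUnit B := by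
      refine isUnit_of_forall_le_norm_inner_map B (c := ⟨η, hη.le⟩) hη fun x => ?_
      rw [hBB, Complex.norm_real, Real.norm_of_nonneg (by positivity)]
      have : (0:ℝ) ≤ ‖A x‖ ^ 2 := by positivity
      change ‖x‖ ^ 2 * η ≤ _
      nlinarith
    obtain ⟨U, hU⟩ := hunit
    set R : L2 G →L[ℂ] L2 G := ((U⁻¹ : (L2 G →L[ℂ] L2 G)ˣ) : L2 G →L[ℂ] L2 G) with hR
    have hBR : ∀ x, B (R x) = x := by
      intro x
      have : B * R = 1 := by rw [← hU, hR]; exact U.mul_inv
      exact congrArg (fun T : L2 G →L[ℂ] L2 G => T x) this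
    have hRB : ∀ x, R (B x) = x := by
      intro x
      have : R * B = 1 := by rw [← hU, hR]; exact U.inv_mul
      exact congrArg (fun T : L2 G →L[ℂ] L2 G => T x) this
    have hAs : ∀ g f, adjoint A (rt g f) = rt g (adjoint A f) := A3a_adj_rt A hA
    have hBrt : ∀ g f, B (rt g f) = rt g (B f) := by
      intro g f
      rw [hBx, hBx, hA, hAs, map_add, map_smul]
    have hRrt : ∀ g f, R (rt g f) = rt g (R f) := by
      intro g f
      have : R (rt g (B (R f))) = rt g (R f) := by rw [← hBrt, hRB]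
      rwa [hBR] at this
    have hRsa : ∀ x y, inner ℂ (R x) y = inner ℂ x (R y) := by
      intro x y
      have hBsa : ∀ x y, inner ℂ (B x) y = inner ℂ x (B y) := by
        intro x y
        rw [hBx, hBx, inner_add_left, inner_add_right, adjoint_inner_left, adjoint_inner_right,
          inner_smul_left, inner_smul_right]
        simp
      calc inner ℂ (R x) y = inner ℂ (R x) (B (R y)) := by rw [hBR]
        _ = inner ℂ (B (R x)) (R y) := by rw [hBsa]
        _ = _ := by rw [hBR]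
    -- ‖η R d‖² ≤ re ⟨d, η R d⟩
    have h1 : ‖(η : ℂ) • R d‖ ^ 2 ≤ (inner ℂ d ((η : ℂ) • R d)).re := by
      rw [inner_smul_right]
      have e : inner ℂ d (R d) = ((‖A (R d)‖ ^ 2 + η * ‖R d‖ ^ 2 : ℝ) : ℂ) := by
        rw [← hBB, hBR]
      rw [e, norm_smul, Complex.norm_real, Real.norm_of_nonneg hη.le]
      rw [← Complex.ofReal_mul, Complex.ofReal_re]
      have : 0 ≤ ‖A (R d)‖ ^ 2 := by positivity
      nlinarith
    -- trace
    have h2 : inner ℂ d ((η : ℂ) • R d) = inner ℂ d (d - A (R (adjoint A d))) := by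
      have e1 : (η : ℂ) • R d = d - (R ∘L adjoint A) (A d) := by
        have := hRB d
        rw [hBx, map_add, map_smul] at this
        rw [eq_sub_iff_add_eq, add_comm]
        exact this
      rw [e1, inner_sub_right, inner_sub_right, hd, A3a_inner_d, A3a_inner_d, A3a_inner_d,
        A3a_trace_comm (R ∘L adjoint A) A (fun g f => by simp [hAs, hRrt]) hA]
      rfl
    -- Tikhonov
    have h3 : (inner ℂ d (d - A (R (adjoint A d)))).re ≤ ‖d - A z‖ ^ 2 + η * ‖z‖ ^ 2 := by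
      set z₀ := R (adjoint A d) with hz₀
      have hz₀' : adjoint A (A z₀) + (η : ℂ) • z₀ = adjoint A d := by rw [← hBx, hz₀, hBR]
      have e0 : ∀ y, inner ℂ (A y) (d - A z₀) = (η : ℂ) * inner ℂ y z₀ := by
        intro y
        rw [← adjoint_inner_right, map_sub, ← hz₀', add_sub_cancel_left, inner_smul_right]
      have e1 : ‖d - A z‖ ^ 2 = ‖d - A z₀‖ ^ 2 + ‖A (z - z₀)‖ ^ 2
          - 2 * (inner ℂ (A (z - z₀)) (d - A z₀)).re := by
        have : d - A z = (d - A z₀) - A (z - z₀) := by rw [map_sub]; abel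
        rw [this, @norm_sub_sq ℂ, hre]
        ring
      have e2 : ‖z‖ ^ 2 = ‖z₀‖ ^ 2 + ‖z - z₀‖ ^ 2 + 2 * (inner ℂ (z - z₀) z₀).re := by
        have : z = z₀ + (z - z₀) := by abel
        conv_lhs => rw [this]
        rw [@norm_add_sq ℂ, hre]
        ring
      have e3 : (inner ℂ d (d - A z₀)).re = ‖d - A z₀‖ ^ 2 + η * ‖z₀‖ ^ 2 := by
        have : inner ℂ d (d - A z₀) = inner ℂ (d - A z₀) (d - A z₀) + inner ℂ (A z₀) (d - A z₀) := by
          rw [← inner_add_left]; congr 1; abel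
        rw [this, e0, hself, hself, ← Complex.ofReal_mul, ← Complex.ofReal_add, Complex.ofReal_re]
      rw [e3, e1, e2, e0]
      have e4 : ((η : ℂ) * inner ℂ (z - z₀) z₀).re = η * (inner ℂ (z - z₀) z₀).re := by
        rw [Complex.re_ofReal_mul]
      rw [e4]
      have : 0 ≤ ‖A (z - z₀)‖ ^ 2 := by positivity
      have : 0 ≤ ‖z - z₀‖ ^ 2 := by positivity
      nlinarith
    -- kernel
    have h4 : (η : ℂ) • R ξ = ξ := by
      have := hRB ξ
      rw [hBx, hξ, map_zero, zero_add, map_smul] at this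
      exact this
    have h5 : ξ g = inner ℂ (rt g⁻¹ ((η : ℂ) • R d)) ξ := by
      rw [map_smul, ← hRrt, inner_smul_left, hRsa]
      have : (starRingEnd ℂ) (η : ℂ) * inner ℂ (rt g⁻¹ d) (R ξ) =
          inner ℂ (rt g⁻¹ d) ((η : ℂ) • R ξ) := by
        rw [inner_smul_right]; simp
      rw [this, h4, hd, A3a_inner_rt_d, inv_inv]
    have h6 : ‖ξ g‖ ≤ ‖(η : ℂ) • R d‖ * ‖ξ‖ := by
      rw [h5]
      refine (norm_inner_le_norm _ _).trans ?_
      rw [LinearIsometry.norm_map]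
    calc ‖ξ g‖ ^ 2 ≤ (‖(η : ℂ) • R d‖ * ‖ξ‖) ^ 2 := by gcongr
      _ = ‖(η : ℂ) • R d‖ ^ 2 * ‖ξ‖ ^ 2 := by ring
      _ ≤ _ := by
        gcongr
        rw [h2] at h1
        exact h1.trans h3
  -- conclusion
  ext g
  rw [lp.coeFn_zero, Pi.zero_apply, ← norm_eq_zero, ← sq_eq_zero_iff]
  refine le_antisymm (le_of_forall_pos_le_add fun e he => ?_) (by positivity)
  set c := ‖ξ‖ ^ 2 + 1 with hc
  have hc0 : 0 < c := by positivity
  obtain ⟨z, hz⟩ := hdense (Real.sqrt (e / (2 * c))) (by positivity)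
  have hz2 : ‖A3a_d G - A z‖ ^ 2 ≤ e / (2 * c) := by
    have := pow_le_pow_left₀ (norm_nonneg _) hz.le 2
    rwa [Real.sq_sqrt (by positivity)] at this
  set η := e / (2 * c * (‖z‖ ^ 2 + 1)) with hη
  have hη0 : 0 < η := by positivity
  have hη2 : η * ‖z‖ ^ 2 ≤ e / (2 * c) := by
    rw [hη, div_mul_eq_mul_div, div_le_div_iff₀ (by positivity) (by positivity)]
    have : 0 ≤ ‖z‖ ^ 2 := by positivity
    have : 0 < e * (2 * c) := by positivity
    nlinarith
  have := key η hη0 z g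
  calc ‖ξ g‖ ^ 2 ≤ (‖A3a_d G - A z‖ ^ 2 + η * ‖z‖ ^ 2) * ‖ξ‖ ^ 2 := this
    _ ≤ (e / (2 * c) + e / (2 * c)) * ‖ξ‖ ^ 2 := by gcongr
    _ ≤ (e / (2 * c) + e / (2 * c)) * c := by
        gcongr
        rw [hc]; linarith
    _ = 0 + e := by field_simp; ring

end Pool.Agent.helper28.OC
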